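import Pool.Agent.H176R3.CancelCircle

/-!
The cancellation law fails for equidecomposability with Borel pieces on the circle, with respect to
the group generated by two reflections whose product is an irrational rotation.
-/

set_option autoImplicit false

open MeasureTheory

namespace Pool.Agent.Results.MP_3fd8c4_al.BorelCancel

open Pool.Agent.H176R3.Cancel

/-- The algebra of Borel subsets of the circle, invariant under the group generated by the
reflections `x ↦ -x` and `x ↦ a - x`. -/
def borelAlg (a : AddCircle (1 : ℝ)) : InvAlg (GR a) (AddCircle (1 : ℝ)) where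
  sets := {S | MeasurableSet S}
  empty_mem := Set.mem_ofPred_eq ▸ MeasurableSet.empty
  univ_mem := Set.mem_ofPred_eq ▸ MeasurableSet.univ
  union_mem := by
    intro A hA B hB
    rw [Set.mem_ofPred_eq] at *
    exact hA.union hB
  inter_mem := by
    intro A hA B hB
    rw [Set.mem_ofPred_eq] at *
    exact hA.inter hB
  compl_mem := by
    intro A hA
    rw [Set.mem_ofPred_eq] at *
    exact hA.compl
  smul_mem := by
    intro g A hA
    have h1 : (fun x => g • x) '' A = ((g : Equiv.Perm T)⁻¹ : Equiv.Perm T) ⁻¹' A := by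
      ext x
      constructor
      · rintro ⟨y, hy, rfl⟩
        have : ((g : Equiv.Perm T)⁻¹ : Equiv.Perm T) (g • y) = y :=
          (g : Equiv.Perm T).symm_apply_apply y
        rw [Set.mem_preimage, this]
        exact hy
      · intro hx
        exact ⟨_, hx, (g : Equiv.Perm T).apply_symm_apply x⟩
    rw [h1]
    exact (GR_measurable g.2).2 hA

variable {a : T}

lemma mem_borel {S : Set T} : S ∈ (borelAlg a).sets ↔ MeasurableSet S := Iff.rfl

/-- The set `S` at level `0`. -/
def lvl (S : Set T) (hS : MeasurableSet S) : (borelAlg a).star :=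
  ⟨{p | p.1 ∈ S ∧ p.2 = 0}, single_mem _ hS 0⟩

/-- The half circle. -/
def half : Set T := (fun r : ℝ => (r : T)) '' Set.Ioo (0 : ℝ) (1 / 2)

lemma half_open : IsOpen half := QuotientAddGroup.isOpenMap_coe _ isOpen_Ioo

lemma half_iff {x : T} (hx : x + x ≠ 0) : x ∈ half ↔ -x ∉ half := by
  have h1 : x ∈ ((↑) : ℝ → T) '' Set.Ico 0 (0 + 1) := by
    rw [AddCircle.coe_image_Ico_eq]; trivial
  obtain ⟨r, hr, rfl⟩ := h1
  rw [zero_add] at hr
  have h0 : r ≠ 0 := by
    rintro rfl
    apply hx
    rw [QuotientAddGroup.mk_zero, add_zero]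
  have h2 : r ≠ 1 / 2 := by
    rintro rfl
    apply hx
    rw [← QuotientAddGroup.mk_add]
    have : (1 / 2 + 1 / 2 : ℝ) = 1 := by norm_num
    rw [this]
    exact AddCircle.coe_period 1
  have hint : ∀ z : ℝ, -1 < z → z < 1 → z ≠ 0 → (z : T) ≠ 0 := by
    intro z hz1 hz2 hz0 h
    obtain ⟨k, hk⟩ := (AddCircle.coe_eq_zero_iff 1).mp h
    rw [zsmul_eq_mul, mul_one] at hk
    rw [← hk] at hz1 hz2 hz0
    have h3 : k < 1 := by exact_mod_cast hz2
    have h4 : -1 < k := by exact_mod_cast hz1
    have h5 : k = 0 := by omega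
    rw [h5] at hz0
    exact hz0 Int.cast_zero
  rcases lt_or_gt_of_ne h2 with h | h
  · constructor
    · rintro - ⟨s, hs, hsx⟩
      have h3 : ((s + r : ℝ) : T) = 0 := by
        rw [QuotientAddGroup.mk_add]
        change (s : T) = -(r : T) at hsx
        change (s : T) + (r : T) = 0
        rw [hsx, neg_add_cancel]
      have hr0 : 0 < r := lt_of_le_of_ne hr.1 (Ne.symm h0)
      exact hint (s + r) (by linarith [hs.1]) (by linarith [hs.2]) (by linarith [hs.1]) h3
    · intro _
      exact ⟨r, ⟨lt_of_le_of_ne hr.1 (Ne.symm h0), h⟩, rfl⟩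
  · constructor
    · rintro ⟨s, hs, hsx⟩
      exfalso
      have h3 : ((r - s : ℝ) : T) = 0 := by
        rw [QuotientAddGroup.mk_sub]
        change (s : T) = (r : T) at hsx
        change (r : T) - (s : T) = 0
        rw [hsx, sub_self]
      exact hint (r - s) (by linarith [hs.2]) (by linarith [hs.1, hr.2]) (by linarith [hs.2]) h3
    · intro hn
      exfalso
      apply hn
      refine ⟨1 - r, ⟨by linarith [hr.2], by linarith⟩, ?_⟩
      change ((1 - r : ℝ) : T) = -(r : T)
      rw [QuotientAddGroup.mk_sub]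
      have : ((1 : ℝ) : T) = 0 := AddCircle.coe_period 1
      change ((1 : ℝ) : T) - (r : T) = -(r : T)
      rw [this, zero_sub]

/-- A set together with its image under an element `g` which together make up `U`. -/
lemma double {U A : Set T} (hU : MeasurableSet U) (hA : MeasurableSet A) (g : GR a)
    (h1 : A ⊆ U) (h2 : ∀ x, g⁻¹ • x ∈ A → x ∈ U) (h3 : ∀ x ∈ U, x ∈ A ↔ g⁻¹ • x ∉ A) :
    (borelAlg a).type (lvl A hA) + (borelAlg a).type (lvl A hA) =
      (borelAlg a).type (lvl U hU) := by
  apply Quotient.sound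
  apply (equi_iff _ _ _).mpr
  set L := lev (lvl (a := a) A hA) with hL
  have hL1 : ∀ x ∈ A, 0 < L := fun x hx => lev_spec (lvl (a := a) A hA) (x, 0) ⟨hx, rfl⟩
  refine ⟨Bool, inferInstance, fun _ => A, fun b => if b then g else 1,
    fun b => if b then L else 0, fun _ => 0, fun _ => hA, ?_, ?_⟩
  · change IsPartition _ ({p : T × ℕ | p.1 ∈ A ∧ p.2 = 0} ∪
      shiftUp L {p : T × ℕ | p.1 ∈ A ∧ p.2 = 0})
    constructor
    · rintro (_ | _) p ⟨hp1, hp2⟩
      · exact Or.inl ⟨hp1, hp2⟩
      · right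
        have hp2' : p.2 = L := hp2
        exact ⟨hp2'.ge, hp1, show p.2 - L = 0 by omega⟩
    · rintro p (⟨hp1, hp2⟩ | ⟨hp1, hp2, hp3⟩)
      · refine ⟨false, ⟨hp1, hp2⟩, ?_⟩
        rintro (_ | _) hj
        · rfl
        · have h4 : p.2 = L := hj.2
          have h5 := hL1 _ hp1
          omega
      · have hp3' : p.2 - L = 0 := hp3
        refine ⟨true, ⟨hp2, show p.2 = L by omega⟩, ?_⟩
        rintro (_ | _) hj
        · have h4 : p.2 = 0 := hj.2
          have h5 := hL1 _ hp2
          omega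
        · rfl
  · change IsPartition _ {p : T × ℕ | p.1 ∈ U ∧ p.2 = 0}
    constructor
    · rintro (_ | _) p ⟨hp1, hp2⟩
      · have h4 : p.1 ∈ A := by simpa using hp1
        exact ⟨h1 h4, hp2⟩
      · exact ⟨h2 _ (by simpa using hp1), hp2⟩
    · rintro p ⟨hp1, hp2⟩
      by_cases h4 : p.1 ∈ A
      · refine ⟨false, ⟨by simpa using h4, hp2⟩, ?_⟩
        rintro (_ | _) hj
        · rfl
        · exact absurd (by simpa using hj.1) ((h3 _ hp1).mp h4)
      · have h5 : g⁻¹ • p.1 ∈ A := by
          by_contra h6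
          exact h4 ((h3 _ hp1).mpr h6)
        refine ⟨true, ⟨by simpa using h5, hp2⟩, ?_⟩
        rintro (_ | _) hj
        · exact absurd (by simpa using hj.1) h4
        · rfl

/-- Equidecomposable sets have indicator functions that differ by a sum of coboundaries. -/
lemma cob_of_equi {A B : Set T} (hA : MeasurableSet A) (hB : MeasurableSet B)
    (h : (borelAlg a).type (lvl A hA) = (borelAlg a).type (lvl B hB)) :
    Cob a (fun x => A.indicator 1 x - B.indicator 1 x) := by
  classical
  have h1 : (borelAlg a).Equi {p | p.1 ∈ A ∧ p.2 = 0} {p | p.1 ∈ B ∧ p.2 = 0} :=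
    Quotient.exact h
  obtain ⟨ι, hι, S, g, m, n, hS, hPA, hPB⟩ := (equi_iff _ _ _).mp h1
  have e1 : ∀ x, A.indicator (1 : T → ℤ) x = ∑ i, (S i).indicator (1 : T → ℤ) x := by
    intro x
    have hm : ∀ i, x ∈ S i → x ∈ A ∧ m i = 0 := fun i hi =>
      hPA.1 i (show (x, m i) ∈ _ from ⟨hi, rfl⟩)
    by_cases hx : x ∈ A
    · obtain ⟨i, hi, hu⟩ := hPA.2 (x, 0) ⟨hx, rfl⟩
      rw [Set.indicator_of_mem hx, Finset.sum_eq_single i]
      · rw [Set.indicator_of_mem (show x ∈ S i from hi.1)]
      · intro j _ hj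
        apply Set.indicator_of_notMem
        intro hxj
        exact hj (hu j ⟨hxj, (hm j hxj).2.symm⟩)
      · intro h; exact absurd (Finset.mem_univ i) h
    · rw [Set.indicator_of_notMem hx]
      symm
      apply Finset.sum_eq_zero
      intro i _
      apply Set.indicator_of_notMem
      intro hi
      exact hx (hm i hi).1
  have e2 : ∀ x, B.indicator (1 : T → ℤ) x =
      ∑ i, (S i).indicator (1 : T → ℤ) ((g i)⁻¹ • x) := by
    intro x
    have hm : ∀ i, (g i)⁻¹ • x ∈ S i → x ∈ B ∧ n i = 0 := fun i hi =>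
      hPB.1 i (show (x, n i) ∈ _ from ⟨hi, rfl⟩)
    by_cases hx : x ∈ B
    · obtain ⟨i, hi, hu⟩ := hPB.2 (x, 0) ⟨hx, rfl⟩
      rw [Set.indicator_of_mem hx, Finset.sum_eq_single i]
      · rw [Set.indicator_of_mem hi.1]; rfl
      · intro j _ hj
        apply Set.indicator_of_notMem
        intro hxj
        exact hj (hu j ⟨hxj, (hm j hxj).2.symm⟩)
      · intro h; exact absurd (Finset.mem_univ i) h
    · rw [Set.indicator_of_notMem hx]
      symm
      apply Finset.sum_eq_zero
      intro i _
      apply Set.indicator_of_notMem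
      intro hi
      exact hx (hm i hi).1
  have e3 : (fun x => A.indicator (1 : T → ℤ) x - B.indicator 1 x) = fun x =>
      ∑ i, ((S i).indicator (1 : T → ℤ) x -
        (S i).indicator (1 : T → ℤ) (((g i : Equiv.Perm T)⁻¹ : Equiv.Perm T) x)) := by
    funext x
    rw [e1, e2, Finset.sum_sub_distrib]
    rfl
  rw [e3]
  apply Cob.sum
  intro i _
  exact cob_of_mem (g i).2 _ (measurable_one.indicator (hS i))

/-- The complement of the exceptional set. -/
lemma U_meas (θ : ℝ) : MeasurableSet (Dex (θ : T))ᶜ := (Dex_countable θ).measurableSet.compl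

lemma neg_mem_GR : Equiv.neg T ∈ GR a := Subgroup.subset_closure (Or.inl rfl)

lemma sub_mem_GR : Equiv.subLeft a ∈ GR a := Subgroup.subset_closure (Or.inr rfl)

/-- Two types with equal doubles that are not equal. -/
lemma exists_types {θ : ℝ} (hθ : Irrational θ) :
    ∃ α β : (borelAlg (θ : T)).Types, α + α = β + β ∧ α ≠ β := by
  set a : T := (θ : T) with ha
  set b : T := ((θ / 2 : ℝ) : T) with hb
  have hbb : b + b = a := by
    rw [hb, ha]
    change ((θ / 2 : ℝ) : T) + ((θ / 2 : ℝ) : T) = (θ : T)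
    rw [← QuotientAddGroup.mk_add, add_halves]
  set U : Set T := (Dex a)ᶜ with hU
  have hUm : MeasurableSet U := U_meas θ
  have hnegU : ∀ x, -x ∈ U ↔ x ∈ U := by
    intro x
    constructor
    · intro h h'; exact h (neg_mem_Dex h')
    · intro h h'; exact h (by simpa using neg_mem_Dex h')
  have hsubU : ∀ x, a - x ∈ U ↔ x ∈ U := by
    intro x
    constructor
    · intro h h'; exact h (sub_mem_Dex h')
    · intro h h'; exact h (by simpa using sub_mem_Dex h')
  set A : Set T := half ∩ U with hA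
  set B : Set T := (fun x => x - b) ⁻¹' half ∩ U with hB
  have hAm : MeasurableSet A := half_open.measurableSet.inter hUm
  have hBm : MeasurableSet B :=
    ((measurable_id.sub measurable_const) half_open.measurableSet).inter hUm
  have hA3 : ∀ x ∈ U, x ∈ A ↔ -x ∉ A := by
    intro x hx
    have h1 : x + x ≠ 0 := by
      intro h
      exact hx ⟨0, by rw [h, zero_smul]⟩
    have h2 := half_iff h1
    rw [hA, Set.mem_inter_iff, Set.mem_inter_iff, hnegU]
    simp only [hx, and_true]
    exact h2
  have hB3 : ∀ x ∈ U, x ∈ B ↔ a - x ∉ B := by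
    intro x hx
    have h1 : (x - b) + (x - b) ≠ 0 := by
      intro h
      refine hx ⟨1, ?_⟩
      rw [one_smul, ← hbb]
      have : x - b + (x - b) = (x + x) - (b + b) := by abel
      rw [this, sub_eq_zero] at h
      exact h
    have h2 := half_iff h1
    have h3 : a - x - b = -(x - b) := by rw [← hbb]; abel
    rw [hB, Set.mem_inter_iff, Set.mem_inter_iff, hsubU, Set.mem_preimage, Set.mem_preimage, h3]
    simp only [hx, and_true]
    exact h2
  have hs : ∀ x : T, (⟨Equiv.neg T, neg_mem_GR⟩ : GR a)⁻¹ • x = -x := by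
    intro x
    rw [inv_smul_eq_iff]
    change x = -(-x)
    rw [neg_neg]
  have ht : ∀ x : T, (⟨Equiv.subLeft a, sub_mem_GR⟩ : GR a)⁻¹ • x = a - x := by
    intro x
    rw [inv_smul_eq_iff]
    change x = a - (a - x)
    rw [sub_sub_cancel]
  have d1 := double hUm hAm (⟨Equiv.neg T, neg_mem_GR⟩ : GR a) Set.inter_subset_right
    (fun x hx => by rw [hs] at hx; exact (hnegU x).mp hx.2) (fun x hx => by rw [hs]; exact hA3 x hx)
  have d2 := double hUm hBm (⟨Equiv.subLeft a, sub_mem_GR⟩ : GR a) Set.inter_subset_right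
    (fun x hx => by rw [ht] at hx; exact (hsubU x).mp hx.2) (fun x hx => by rw [ht]; exact hB3 x hx)
  refine ⟨_, _, d1.trans d2.symm, fun h => ?_⟩
  obtain ⟨f, k, hf, hk, hfk⟩ := cob_of_equi hAm hBm h
  have hind : ∀ (S : Set T) (x y : T), (x ∈ S ↔ y ∉ S) →
      S.indicator (1 : T → ℤ) x + S.indicator (1 : T → ℤ) y = 1 := by
    intro S x y hxy
    by_cases hx : x ∈ S
    · rw [Set.indicator_of_mem hx, Set.indicator_of_notMem (hxy.mp hx)]; rfl
    · have hy : y ∈ S := by
        by_contra hy
        exact hx (hxy.mpr hy)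
      rw [Set.indicator_of_mem hy, Set.indicator_of_notMem hx]; rfl
  have hind0 : ∀ (S : Set T) (x y : T), x ∉ S → y ∉ S →
      S.indicator (1 : T → ℤ) x + S.indicator (1 : T → ℤ) y = 0 := by
    intro S x y hx hy
    rw [Set.indicator_of_notMem hy, Set.indicator_of_notMem hx]; rfl
  have hm : ∀ x, A.indicator (1 : T → ℤ) x - (f x - f (-x)) =
      B.indicator (1 : T → ℤ) x + (k x - k (a - x)) := by
    intro x
    have := hfk x
    linarith
  refine no_solution hθ (fun x => A.indicator 1 x - (f x - f (-x)))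
    ((measurable_one.indicator hAm).sub (hf.sub (hf.comp measurable_neg))) ?_ ?_ ?_ ?_
  · intro x hx
    beta_reduce
    have := hind A x (-x) (hA3 x hx)
    rw [neg_neg]
    linarith
  · intro x hx
    beta_reduce
    have := hind0 A x (-x) (fun h => h.2 hx) (fun h => h.2 (neg_mem_Dex hx))
    rw [neg_neg]
    linarith
  · intro x hx
    beta_reduce
    rw [hm, hm]
    have := hind B x (a - x) (hB3 x hx)
    rw [← ha, sub_sub_cancel]
    linarith
  · intro x hx
    beta_reduce
    rw [hm, hm]
    have := hind0 B x (a - x) (fun h => h.2 hx) (fun h => h.2 (sub_mem_Dex hx))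
    rw [← ha, sub_sub_cancel]
    linarith

/-- The orbit relation. -/
def orb (a : T) : Setoid T where
  r x y := ∃ n : ℤ, x - y = n • a ∨ x + y = n • a
  iseqv :=
    { refl := fun x => ⟨0, Or.inl (by simp)⟩
      symm := by
        rintro x y ⟨n, h | h⟩
        · exact ⟨-n, Or.inl (by rw [neg_smul, ← h]; abel)⟩
        · exact ⟨n, Or.inr (by rw [← h]; abel)⟩
      trans := by
        rintro x y z ⟨n, h | h⟩ ⟨k, h' | h'⟩
        · exact ⟨n + k, Or.inl (by rw [add_smul, ← h, ← h']; abel)⟩
        · exact ⟨n + k, Or.inr (by rw [add_smul, ← h, ← h']; abel)⟩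
        · exact ⟨n - k, Or.inr (by rw [sub_smul, ← h, ← h']; abel)⟩
        · exact ⟨n - k, Or.inl (by rw [sub_smul, ← h, ← h']; abel)⟩ }

/-- There is a subset of the circle that is not Borel. -/
lemma proper {θ : ℝ} (hθ : Irrational θ) : (borelAlg (θ : T)).Proper := by
  classical
  intro hall
  have hmeas : ∀ S : Set T, MeasurableSet S := by
    intro S
    have : S ∈ (borelAlg (θ : T)).sets := by rw [hall]; trivial
    exact this
  set a : T := (θ : T) with ha
  let rep : T → T := fun x => (Quotient.mk (orb a) x).out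
  have hrep : ∀ x, ∃ n : ℤ, x - rep x = n • a ∨ x + rep x = n • a := by
    intro x
    exact (orb a).symm (Quotient.mk_out (s := orb a) x)
  have hrep' : ∀ x y, (orb a).r x y → rep x = rep y := by
    intro x y hxy
    change (Quotient.mk (orb a) x).out = (Quotient.mk (orb a) y).out
    rw [Quotient.sound (s := orb a) hxy]
  let P : T → Prop := fun x => x ∉ Dex a ∧ ∃ n : ℤ, x - rep x = n • a
  let m : T → ℤ := fun x => if P x then 1 else 0
  have hneg : ∀ x, rep (-x) = rep x := fun x => hrep' _ _ ⟨0, Or.inr (by simp)⟩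
  have hsub : ∀ x, rep (a - x) = rep x := fun x => hrep' _ _ ⟨1, Or.inr (by simp)⟩
  have hD0 : ∀ x ∈ Dex a, m x = 0 := fun x hx => if_neg (fun h => h.1 hx)
  have hex : ∀ x, x ∉ Dex a → ((∃ n : ℤ, x - rep x = n • a) ↔ ¬ ∃ n : ℤ, x + rep x = n • a) := by
    intro x hx
    constructor
    · rintro ⟨n, hn⟩ ⟨k, hk⟩
      apply hx
      refine ⟨n + k, ?_⟩
      rw [add_smul, ← hn, ← hk]
      abel
    · intro h
      obtain ⟨n, hn | hn⟩ := hrep x
      · exact ⟨n, hn⟩
      · exact absurd ⟨n, hn⟩ h
  have hcomb : ∀ x y, x ∉ Dex a → y ∉ Dex a →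
      ((∃ n : ℤ, y - rep y = n • a) ↔ ∃ n : ℤ, x + rep x = n • a) → m x + m y = 1 := by
    intro x y hx hy h
    by_cases h1 : ∃ n : ℤ, x - rep x = n • a
    · have h2 : ¬ P y := fun h3 => (hex x hx).mp h1 (h.mp h3.2)
      have e1 : m x = 1 := if_pos ⟨hx, h1⟩
      have e2 : m y = 0 := if_neg h2
      rw [e1, e2]; rfl
    · have h2 : ∃ n : ℤ, x + rep x = n • a := by
        by_contra h3
        exact h1 ((hex x hx).mpr h3)
      have e1 : m x = 0 := if_neg (fun h3 => h1 h3.2)
      have e2 : m y = 1 := if_pos ⟨hy, h.mpr h2⟩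
      rw [e1, e2]; rfl
  refine no_solution hθ m (fun S _ => hmeas _) ?_ ?_ ?_ ?_
  · intro x hx
    apply hcomb x (-x) hx (fun h => hx (by simpa using neg_mem_Dex h))
    rw [hneg]
    constructor
    · rintro ⟨n, hn⟩
      exact ⟨-n, by rw [neg_smul, ← hn]; abel⟩
    · rintro ⟨n, hn⟩
      exact ⟨-n, by rw [neg_smul, ← hn]; abel⟩
  · intro x hx
    rw [hD0 x hx, hD0 (-x) (neg_mem_Dex hx)]; rfl
  · intro x hx
    apply hcomb x (a - x) hx (fun h => hx (by simpa using sub_mem_Dex h))
    rw [hsub]
    constructor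
    · rintro ⟨n, hn⟩
      exact ⟨1 - n, by rw [sub_smul, ← hn, one_smul]; abel⟩
    · rintro ⟨n, hn⟩
      exact ⟨1 - n, by rw [sub_smul, ← hn, one_smul]; abel⟩
  · intro x hx
    rw [hD0 x hx, hD0 _ (sub_mem_Dex hx)]; rfl

/-- For every irrational `θ`, the algebra of all Borel subsets of the circle is a proper subalgebra
of the algebra of all subsets, invariant under the group generated by the reflections `x ↦ -x` and
`x ↦ θ - x`, and the cancellation law fails for its types; in fact there are types `α ≠ β` with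
`α + α = β + β`. -/
theorem result : ∀ θ : ℝ, Irrational θ →
    (borelAlg (θ : AddCircle (1 : ℝ))).Proper ∧
    ¬ (borelAlg (θ : AddCircle (1 : ℝ))).CancellationLaw := by
  intro θ hθ
  refine ⟨proper hθ, fun hc => ?_⟩
  obtain ⟨α, β, h1, h2⟩ := exists_types hθ
  exact h2 (hc 2 (by norm_num) α β h1)

end Pool.Agent.Results.MP_3fd8c4_al.BorelCancel
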